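import Mathlib

/-!
Structure of flats of dimension k on which a partial spread function of minus type in
2k variables is constant.
-/

namespace Pool.Agent.H164.PSGen

open Module

variable {k : ℕ} {X : Type*} [AddCommGroup X] [Module (ZMod 2) X] [Module.Finite (ZMod 2) X]

lemma zmod2_cases (a : ZMod 2) : a = 0 ∨ a = 1 := by
  revert a; decide

/-- dimension count: annihilators of two k-dimensional subspaces of a 2k-dimensional space -/
lemma finrank_dual_inf (hX : finrank (ZMod 2) X = 2 * k)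
    (V E : Submodule (ZMod 2) X) (hV : finrank (ZMod 2) V = k) (hE : finrank (ZMod 2) E = k) :
    finrank (ZMod 2) ↥(V.dualAnnihilator ⊓ E.dualAnnihilator) = finrank (ZMod 2) ↥(V ⊓ E) := by
  have h1 := Submodule.finrank_sup_add_finrank_inf_eq V E
  have h2 := Subspace.finrank_add_finrank_dualAnnihilator_eq (V ⊔ E)
  rw [Submodule.dualAnnihilator_sup_eq] at h2
  omega

lemma dual_inf_bot (hX : finrank (ZMod 2) X = 2 * k)
    (V E : Submodule (ZMod 2) X) (hV : finrank (ZMod 2) V = k) (hE : finrank (ZMod 2) E = k)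
    (h : V ⊓ E = ⊥) : V.dualAnnihilator ⊓ E.dualAnnihilator = ⊥ := by
  have h1 := finrank_dual_inf hX V E hV hE
  rw [h, finrank_bot] at h1
  exact Submodule.finrank_eq_zero.mp h1

lemma card_sub (V : Submodule (ZMod 2) X) : Nat.card V = 2 ^ finrank (ZMod 2) V := by
  have := Module.natCard_eq_pow_finrank (K := ZMod 2) (V := V)
  simpa using this

/-- for c outside V, exactly half of the functionals killing V are 1 at c -/
lemma card_T (hX : finrank (ZMod 2) X = 2 * k) (hk : 0 < k)
    (V : Submodule (ZMod 2) X) (hV : finrank (ZMod 2) V = k) (c : X) (hc : c ∉ V) :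
    Nat.card {φ : Dual (ZMod 2) X // φ ∈ V.dualAnnihilator ∧ φ c = 1} = 2 ^ (k - 1) ∧
    Nat.card {φ : Dual (ZMod 2) X // φ ∈ V.dualAnnihilator ∧ φ c = 0} = 2 ^ (k - 1) := by
  classical
  have : Finite (Dual (ZMod 2) X) := Module.finite_of_finite (ZMod 2)
  obtain ⟨g, hg1, hg2⟩ := Submodule.exists_le_ker_of_notMem hc
  have hg1' : g c = 1 := by
    rcases zmod2_cases (g c) with h | h
    · exact absurd h hg1
    · exact h
  have hgV : g ∈ V.dualAnnihilator := by
    rw [Submodule.mem_dualAnnihilator]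
    intro w hw
    exact hg2 hw
  have hgg : ∀ φ : Dual (ZMod 2) X, φ + g + g = φ := by
    intro φ
    ext x
    simp only [LinearMap.add_apply]
    rcases zmod2_cases (g x) with h | h <;> rw [h]
    · simp
    · rw [add_assoc]
      have : (1 : ZMod 2) + 1 = 0 := by decide
      rw [this, add_zero]
  let e : {φ : Dual (ZMod 2) X // φ ∈ V.dualAnnihilator ∧ φ c = 1} ≃
      {φ : Dual (ZMod 2) X // φ ∈ V.dualAnnihilator ∧ φ c = 0} :=
    { toFun := fun φ => ⟨φ.1 + g, V.dualAnnihilator.add_mem φ.2.1 hgV, by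
        rw [LinearMap.add_apply, φ.2.2, hg1']; decide⟩
      invFun := fun φ => ⟨φ.1 + g, V.dualAnnihilator.add_mem φ.2.1 hgV, by
        rw [LinearMap.add_apply, φ.2.2, hg1']; decide⟩
      left_inv := fun φ => Subtype.ext (hgg φ.1)
      right_inv := fun φ => Subtype.ext (hgg φ.1) }
  have h1 := Nat.card_congr e
  have h2 : Nat.card (↥V.dualAnnihilator) =
      Nat.card {φ : Dual (ZMod 2) X // φ ∈ V.dualAnnihilator ∧ φ c = 1} +
      Nat.card {φ : Dual (ZMod 2) X // φ ∈ V.dualAnnihilator ∧ φ c = 0} := by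
    rw [← Nat.card_sum]
    refine Nat.card_congr ?_
    refine
      { toFun := fun φ => if h : φ.1 c = 1 then Sum.inl ⟨φ.1, φ.2, h⟩ else
          Sum.inr ⟨φ.1, φ.2, (zmod2_cases (φ.1 c)).resolve_right h⟩
        invFun := fun s => s.elim (fun φ => ⟨φ.1, φ.2.1⟩) (fun φ => ⟨φ.1, φ.2.1⟩)
        left_inv := ?_
        right_inv := ?_ }
    · intro φ
      by_cases h : φ.1 c = 1
      · simp [h]
      · simp [h]
    · intro s
      rcases s with φ | φ
      · simp [φ.2.2]
      · simp [φ.2.2]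
  have h3 : finrank (ZMod 2) ↥V.dualAnnihilator = k := by
    have := Subspace.finrank_add_finrank_dualAnnihilator_eq V
    omega
  have h4 : Nat.card (↥V.dualAnnihilator) = 2 ^ k := by
    rw [card_sub, h3]
  have h5 : 2 ^ k = 2 * 2 ^ (k - 1) := by
    rw [← pow_succ']
    congr 1
    omega
  omega

/-- The setting: E is a family of k-dimensional subspaces of a 2k-dimensional space meeting
pairwise trivially. -/
lemma no_one {ι : Type*} [Fintype ι] (hι : Fintype.card ι = 2 ^ (k - 1))
    (hX : finrank (ZMod 2) X = 2 * k) (hk : 0 < k)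
    (E : ι → Submodule (ZMod 2) X) (hE : ∀ i, finrank (ZMod 2) (E i) = k)
    (hdis : ∀ i j, i ≠ j → E i ⊓ E j = ⊥)
    (V : Submodule (ZMod 2) X) (hV : finrank (ZMod 2) V = k) (c : X) (hc : c ∉ V)
    (h : ∀ v ∈ V, ∃ i, c + v ∈ E i) : False := by
  classical
  have : Finite (Dual (ZMod 2) X) := Module.finite_of_finite (ZMod 2)
  have : Finite X := Module.finite_of_finite (ZMod 2)
  have := Fintype.ofFinite (Dual (ZMod 2) X)
  have := Fintype.ofFinite X
  have : Nonempty ι := ⟨(h 0 V.zero_mem).choose⟩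
  choose! o ho using h
  let VF : Finset X := Finset.univ.filter (· ∈ V)
  let D' : ι → Finset (Dual (ZMod 2) X) := fun i =>
    Finset.univ.filter fun φ => φ ∈ V.dualAnnihilator ∧ φ ∈ (E i).dualAnnihilator ∧ φ ≠ 0 ∧ φ c = 0
  have hVF : VF.card = 2 ^ k := by
    rw [← hV, ← card_sub, ← Fintype.card_subtype, Nat.card_eq_fintype_card]
  have h1 : VF.card = ∑ i : ι, (VF.filter fun v => o v = i).card :=
    Finset.card_eq_sum_card_fiberwise (fun _ _ => Finset.mem_coe.mpr (Finset.mem_univ _))
  have h2 : ∀ i, (VF.filter fun v => o v = i).card ≤ 1 + (D' i).card := by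
    intro i
    rcases (VF.filter fun v => o v = i).eq_empty_or_nonempty with h0 | ⟨v0, hv0⟩
    · rw [h0]; simp
    · rw [Finset.mem_filter, Finset.mem_filter] at hv0
      obtain ⟨⟨-, hv0V⟩, hov0⟩ := hv0
      have hcv0 : c + v0 ∈ E i := hov0 ▸ ho v0 hv0V
      -- the fibre injects into V ⊓ E i
      have h3 : (VF.filter fun v => o v = i).card ≤ Nat.card ↥(V ⊓ E i) := by
        rw [Nat.card_eq_fintype_card, ← Fintype.card_coe]
        refine Fintype.card_le_of_injective (fun v => ⟨v.1 - v0, ?_⟩) ?_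
        · have hv := v.2
          rw [Finset.mem_filter, Finset.mem_filter] at hv
          obtain ⟨⟨-, hvV⟩, hov⟩ := hv
          refine ⟨V.sub_mem hvV hv0V, ?_⟩
          have h5 : c + v.1 ∈ E i := by
            have h55 := ho v.1 hvV
            rwa [hov] at h55
          have h6 := (E i).sub_mem h5 hcv0
          rwa [add_sub_add_left_eq_sub] at h6
        · intro v w hvw
          have := congrArg Subtype.val hvw
          simp only [sub_left_inj] at this
          exact Subtype.ext this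
      have h4 : Nat.card ↥(V ⊓ E i) = Nat.card ↥(V.dualAnnihilator ⊓ (E i).dualAnnihilator) := by
        rw [card_sub, card_sub, finrank_dual_inf hX V (E i) hV (hE i)]
      have h5 : Nat.card ↥(V.dualAnnihilator ⊓ (E i).dualAnnihilator) ≤ 1 + (D' i).card := by
        have h6 : Nat.card ↥(V.dualAnnihilator ⊓ (E i).dualAnnihilator) =
            (Finset.univ.filter fun φ => φ ∈ V.dualAnnihilator ⊓ (E i).dualAnnihilator).card := by
          rw [Nat.card_eq_fintype_card, ← Fintype.card_subtype]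
        rw [h6]
        have h7 : (Finset.univ.filter fun φ => φ ∈ V.dualAnnihilator ⊓ (E i).dualAnnihilator) ⊆
            insert 0 (D' i) := by
          intro φ hφ
          rw [Finset.mem_filter] at hφ
          obtain ⟨-, hφ1, hφ2⟩ := hφ
          rw [Finset.mem_insert]
          by_cases h0 : φ = 0
          · exact Or.inl h0
          · right
            rw [Finset.mem_filter]
            refine ⟨Finset.mem_univ _, hφ1, hφ2, h0, ?_⟩
            have h8 : φ (c + v0) = 0 := (Submodule.mem_dualAnnihilator φ).mp hφ2 _ hcv0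
            have h9 : φ v0 = 0 := (Submodule.mem_dualAnnihilator φ).mp hφ1 _ hv0V
            rw [map_add, h9, add_zero] at h8
            exact h8
        calc _ ≤ (insert 0 (D' i)).card := Finset.card_le_card h7
          _ ≤ (D' i).card + 1 := Finset.card_insert_le _ _
          _ = 1 + (D' i).card := by ring
      omega
  have h3 : VF.card ≤ 2 ^ (k - 1) + ∑ i : ι, (D' i).card := by
    rw [h1]
    calc _ ≤ ∑ i : ι, (1 + (D' i).card) := Finset.sum_le_sum fun i _ => h2 i
      _ = _ := by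
        rw [Finset.sum_add_distrib]
        simp [hι]
  have h4 : ∑ i : ι, (D' i).card = (Finset.univ.biUnion D').card := by
    rw [Finset.card_biUnion]
    intro i _ j _ hij
    rw [Function.onFun, Finset.disjoint_left]
    intro φ hφ1 hφ2
    rw [Finset.mem_filter] at hφ1 hφ2
    have h5 : φ ∈ (E i).dualAnnihilator ⊓ (E j).dualAnnihilator := ⟨hφ1.2.2.1, hφ2.2.2.1⟩
    rw [dual_inf_bot hX (E i) (E j) (hE i) (hE j) (hdis i j hij)] at h5
    exact hφ1.2.2.2.1 ((Submodule.mem_bot _).mp h5)
  have h5 : (Finset.univ.biUnion D').card + 1 ≤ 2 ^ (k - 1) := by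
    rw [← (card_T hX hk V hV c hc).2, Nat.card_eq_fintype_card, Fintype.card_subtype]
    have h6 : (0 : Dual (ZMod 2) X) ∉ Finset.univ.biUnion D' := by
      rw [Finset.mem_biUnion]
      rintro ⟨i, -, hi⟩
      rw [Finset.mem_filter] at hi
      exact hi.2.2.2.1 rfl
    rw [← Finset.card_insert_of_notMem h6]
    refine Finset.card_le_card ?_
    intro φ hφ
    rw [Finset.mem_insert, Finset.mem_biUnion] at hφ
    rw [Finset.mem_filter]
    rcases hφ with rfl | ⟨i, -, hi⟩
    · exact ⟨Finset.mem_univ _, Submodule.zero_mem _, rfl⟩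
    · rw [Finset.mem_filter] at hi
      exact ⟨Finset.mem_univ _, hi.2.1, hi.2.2.2.2⟩
  have h6 : 2 ^ k = 2 * 2 ^ (k - 1) := by
    rw [← pow_succ']
    congr 1
    omega
  omega

/-- the second kind of constant flat: c outside V -/
lemma zero_case {ι : Type*} [Fintype ι] (hι : Fintype.card ι = 2 ^ (k - 1))
    (hX : finrank (ZMod 2) X = 2 * k) (hk : 0 < k)
    (E : ι → Submodule (ZMod 2) X) (hE : ∀ i, finrank (ZMod 2) (E i) = k)
    (hdis : ∀ i j, i ≠ j → E i ⊓ E j = ⊥)
    (V : Submodule (ZMod 2) X) (hV : finrank (ZMod 2) V = k) (c : X) (hc : c ∉ V)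
    (h : ∀ v ∈ V, ∀ i, c + v ∉ E i) :
    ∃ φ : ι → Dual (ZMod 2) X, Function.Injective φ ∧ (∀ i, φ i ∈ V.dualAnnihilator) ∧
      (∀ i, φ i ∈ (E i).dualAnnihilator) ∧ (∀ i, φ i c = 1) ∧
      ∀ ψ ∈ V.dualAnnihilator, ψ c = 1 → ∃ i, ψ = φ i := by
  classical
  have : Finite (Dual (ZMod 2) X) := Module.finite_of_finite (ZMod 2)
  have := Fintype.ofFinite (Dual (ZMod 2) X)
  have h1 : ∀ i, c ∉ V ⊔ E i := by
    intro i hi
    rw [Submodule.mem_sup] at hi
    obtain ⟨v, hv, e, he, hve⟩ := hi
    apply h (-v) (V.neg_mem hv) i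
    rw [← hve]
    simpa using he
  have h2 : ∀ i, ∃ φ : Dual (ZMod 2) X, φ ∈ V.dualAnnihilator ∧ φ ∈ (E i).dualAnnihilator ∧
      φ c = 1 := by
    intro i
    obtain ⟨g, hg1, hg2⟩ := Submodule.exists_le_ker_of_notMem (h1 i)
    refine ⟨g, ?_, ?_, (zmod2_cases (g c)).resolve_left hg1⟩
    · rw [Submodule.mem_dualAnnihilator]
      intro w hw
      exact hg2 (Submodule.mem_sup_left hw)
    · rw [Submodule.mem_dualAnnihilator]
      intro w hw
      exact hg2 (Submodule.mem_sup_right hw)
  choose φ hφ1 hφ2 hφ3 using h2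
  have hinj : Function.Injective φ := by
    intro i j hij
    by_contra hne
    have h5 : φ i ∈ (E i).dualAnnihilator ⊓ (E j).dualAnnihilator := ⟨hφ2 i, hij ▸ hφ2 j⟩
    rw [dual_inf_bot hX (E i) (E j) (hE i) (hE j) (hdis i j hne), Submodule.mem_bot] at h5
    have h6 := hφ3 i
    rw [h5] at h6
    simp at h6
  refine ⟨φ, hinj, hφ1, hφ2, hφ3, ?_⟩
  have hcard := (card_T hX hk V hV c hc).1
  rw [Nat.card_eq_fintype_card] at hcard
  let Φ : ι → {φ : Dual (ZMod 2) X // φ ∈ V.dualAnnihilator ∧ φ c = 1} :=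
    fun i => ⟨φ i, hφ1 i, hφ3 i⟩
  have hΦ : Function.Injective Φ := fun i j hij => hinj (congrArg Subtype.val hij)
  have hbij : Function.Bijective Φ :=
    (Fintype.bijective_iff_injective_and_card Φ).mpr ⟨hΦ, by rw [hι, hcard]⟩
  intro ψ hψ1 hψ2
  obtain ⟨i, hi⟩ := hbij.2 ⟨ψ, hψ1, hψ2⟩
  exact ⟨i, (congrArg Subtype.val hi).symm⟩

end Pool.Agent.H164.PSGen
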