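import Pool.Agent.H164.PS10
import Pool.Agent.H164.PSGen

namespace Pool.Agent.H164.NPS

open Module

theorem all_range {n : ℕ} {p : ℕ → Bool} (h : (List.range n).all p = true) (i : ℕ) (hi : i < n) :
    p i = true := by
  rw [List.all_eq_true] at h
  exact h i (List.mem_range.mpr hi)

theorem srch1_sound (P : ℕ → Prop) (hP : ∀ a b, P a → P b → P (Nat.xor a b))
    (hown : ∀ a, P a → own a = 0) (hex : ∀ j < 5, ∃ m < 32, P (2^j + 32*m)) :
    ∀ r j S, j + r = 5 → (∀ s ∈ S, P s) → srch1 r j S = true → False := by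
  intro r
  induction r with
  | zero =>
    intro j S _ _ h
    simp [srch1] at h
  | succ r ih =>
    intro j S hj hS h
    rw [srch1] at h
    obtain ⟨m, hm, hPm⟩ := hex j (by omega)
    have h1 := all_range h m hm
    rw [Bool.or_eq_true] at h1
    rcases h1 with h1 | h1
    · rw [List.any_eq_true] at h1
      obtain ⟨s, hs, hs2⟩ := h1
      have h2 := hown _ (hP s _ (hS s hs) hPm)
      rw [h2] at hs2
      exact absurd hs2 (by decide)
    · refine ih (j+1) _ (by omega) ?_ h1
      intro s hs
      rw [List.mem_append] at hs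
      rcases hs with hs | hs
      · exact hS s hs
      · rw [List.mem_map] at hs
        obtain ⟨t, ht, rfl⟩ := hs
        exact hP t _ (hS t ht) hPm

theorem pick_lt (M : ℕ) : pick M - 1 < 16 := by
  unfold pick
  rcases h : (List.range 17).find? (fun i => !(M.testBit i)) with _ | a
  · simp
  · have := List.mem_of_find?_eq_some h
    rw [List.mem_range] at this
    simp only [Option.getD_some]
    omega

theorem srch2_sound (P : ℕ → Prop)
    (h3 : ∀ a b c, P a → P b → P c → P (Nat.xor a (Nat.xor b c)))
    (hpair : ∀ a b, P a → P b → own2 (Nat.xor a b) = 0)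
    (hown : ∀ a, P a → own2 a ≠ 0)
    (hex : ∀ i < 16, ∃ y, P y ∧ y ∈ DL.getD i []) :
    ∀ r T t0 M, (∀ t ∈ T, P t) → P t0 → srch2 r T t0 M = true → False := by
  intro r
  induction r with
  | zero =>
    intro T t0 M _ _ h
    simp [srch2] at h
  | succ r ih =>
    intro T t0 M hT ht0 h
    rw [srch2] at h
    obtain ⟨y, hPy, hy⟩ := hex (pick M - 1) (pick_lt M)
    rw [List.all_eq_true] at h
    have h1 := h y hy
    rw [Bool.or_eq_true, Bool.or_eq_true] at h1
    rcases h1 with h1 | h1 | h1
    · rw [List.any_eq_true] at h1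
      obtain ⟨s, hs, hs2⟩ := h1
      have h2 := hpair _ _ (hT s hs) hPy
      rw [h2] at hs2
      exact absurd hs2 (by decide)
    · rw [List.any_eq_true] at h1
      obtain ⟨s, hs, hs2⟩ := h1
      have h2 := hown _ (h3 _ _ _ (hT s hs) hPy ht0)
      exact h2 (Nat.eq_of_beq_eq_true hs2).symm
    · refine ih _ t0 _ ?_ ht0 h1
      intro s hs
      rw [List.mem_append] at hs
      rcases hs with hs | hs
      · exact hT s hs
      · rw [List.mem_map] at hs
        obtain ⟨t, ht, rfl⟩ := hs
        exact h3 t _ _ (hT t ht) hPy ht0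

abbrev X := Fin (2 * 5) → ZMod 2

/-- a bit as an element of the two-element field -/
def bv (b : Bool) : ZMod 2 := if b then 1 else 0

theorem bv_xor (a b : Bool) : bv a + bv b = bv (Bool.xor a b) := by
  cases a <;> cases b <;> decide

theorem bv_and (a b : Bool) : bv a * bv b = bv (a && b) := by
  cases a <;> cases b <;> decide

theorem bv_inj (a b : Bool) : bv a = bv b → a = b := by
  cases a <;> cases b <;> decide

theorem bv_dec (a : ZMod 2) : bv (decide (a = 1)) = a := by
  revert a; decide

def enc (x : X) : ℕ := Nat.ofBits (fun i : Fin 10 => decide (x i = 1))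

def dec (a : ℕ) : X := fun i => bv (a.testBit i)

theorem enc_lt (x : X) : enc x < 1024 := Nat.ofBits_lt_two_pow _

theorem testBit_enc (x : X) (i : ℕ) (hi : i < 10) : (enc x).testBit i = decide (x ⟨i, hi⟩ = 1) :=
  Nat.testBit_ofBits_lt _ i hi

theorem testBit_ge (a : ℕ) (ha : a < 1024) (i : ℕ) (hi : ¬ i < 10) : a.testBit i = false := by
  apply Nat.testBit_lt_two_pow
  calc a < 2 ^ 10 := ha
    _ ≤ 2 ^ i := Nat.pow_le_pow_right (by norm_num) (by omega)

theorem bv_testBit_enc (x : X) (i : Fin (2 * 5)) : bv ((enc x).testBit i) = x i := by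
  rw [testBit_enc x i i.2, bv_dec]

theorem dec_enc (x : X) : dec (enc x) = x := by
  funext i
  exact bv_testBit_enc x i

theorem enc_dec (a : ℕ) (ha : a < 1024) : enc (dec a) = a := by
  apply Nat.eq_of_testBit_eq
  intro i
  by_cases hi : i < 10
  · apply bv_inj
    exact bv_testBit_enc (dec a) ⟨i, hi⟩
  · rw [testBit_ge _ (enc_lt _) i hi, testBit_ge _ ha i hi]

theorem enc_inj {x y : X} (h : enc x = enc y) : x = y := by
  rw [← dec_enc x, ← dec_enc y, h]

theorem enc_add (x y : X) : enc (x + y) = Nat.xor (enc x) (enc y) := by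
  apply Nat.eq_of_testBit_eq
  intro i
  have hx : (Nat.xor (enc x) (enc y)).testBit i =
      Bool.xor ((enc x).testBit i) ((enc y).testBit i) := Nat.testBit_xor (enc x) (enc y) i
  rw [hx]
  by_cases hi : i < 10
  · apply bv_inj
    rw [← bv_xor]
    have h1 := bv_testBit_enc (x + y) ⟨i, hi⟩
    have h2 := bv_testBit_enc x ⟨i, hi⟩
    have h3 := bv_testBit_enc y ⟨i, hi⟩
    rw [Pi.add_apply, ← h2, ← h3] at h1
    exact h1
  · rw [testBit_ge _ (enc_lt _) i hi, testBit_ge _ (enc_lt _) i hi, testBit_ge _ (enc_lt _) i hi]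
    rfl

theorem enc_zero : enc 0 = 0 := by
  have h := enc_add 0 0
  rw [add_zero] at h
  rw [h]
  exact Nat.xor_self _

theorem enc_eq_zero {x : X} (h : enc x = 0) : x = 0 := enc_inj (by rw [h, enc_zero])

theorem sum_bv (a b : ℕ) : (∑ i : Fin (2 * 5), bv (a.testBit i) * bv (b.testBit i)) =
    bv (par (Nat.land a b)) := by
  have h : ∀ i : ℕ, bv (a.testBit i) * bv (b.testBit i) = bv ((Nat.land a b).testBit i) := by
    intro i
    rw [bv_and]
    congr 1
    exact (Nat.testBit_and a b i).symm
  simp_rw [h]
  change (∑ i : Fin 10, bv ((Nat.land a b).testBit i)) = _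
  simp only [Fin.sum_univ_castSucc, Finset.univ_eq_empty, Finset.sum_empty, zero_add]
  simp only [bv_xor]
  rfl

theorem PAR_eq (a : ℕ) (ha : a < 1024) : PAR.testBit a = par a := by
  have := all_range chk_par a ha
  exact beq_iff_eq.mp this

/-- inner product with a coded vector -/
def dot (h : ℕ) (x : X) : ZMod 2 := ∑ j : Fin (2 * 5), bv (h.testBit j) * x j

theorem dot_eq (h : ℕ) (x : X) : dot h x = bv (par (Nat.land h (enc x))) := by
  rw [← sum_bv]
  unfold dot
  refine Finset.sum_congr rfl fun j _ => ?_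
  rw [bv_testBit_enc]

theorem land_lt (a b : ℕ) (hb : b < 1024) : Nat.land a b < 1024 := by
  have : a &&& b ≤ b := Nat.and_le_right
  exact lt_of_le_of_lt this hb

/-- the i-th subspace of the partial spread -/
def E (i : Fin (2 ^ (5 - 1))) : Submodule (ZMod 2) X where
  carrier := {x | ∀ h ∈ HL.getD i [], dot h x = 0}
  zero_mem' := by
    intro h _
    simp [dot]
  add_mem' := by
    intro x y hx hy h hh
    have h1 := hx h hh
    have h2 := hy h hh
    unfold dot at *
    simp only [Pi.add_apply, mul_add, Finset.sum_add_distrib]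
    rw [h1, h2, add_zero]
  smul_mem' := by
    intro c x hx h hh
    have h1 := hx h hh
    unfold dot at *
    simp only [Pi.smul_apply, smul_eq_mul, mul_left_comm _ c, ← Finset.mul_sum]
    rw [h1, mul_zero]

theorem mem_E (i : Fin (2 ^ (5 - 1))) (x : X) :
    x ∈ E i ↔ (enc x = 0 ∨ own (enc x) = i + 1) := by
  have h1 := all_range chk_mem i i.2
  have h2 := all_range h1 (enc x) (enc_lt x)
  have h3 := beq_iff_eq.mp h2
  have h4 : x ∈ E i ↔ ((HL.getD i []).all fun h => !(PAR.testBit (Nat.land h (enc x)))) = true := by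
    rw [List.all_eq_true]
    refine forall_congr' fun h => forall_congr' fun _ => ?_
    rw [dot_eq, PAR_eq _ (land_lt h (enc x) (enc_lt x))]
    cases par (h.land (enc x)) <;> decide
  rw [h4, h3, Bool.or_eq_true, beq_iff_eq, beq_iff_eq]

theorem card_E (i : Fin (2 ^ (5 - 1))) : Nat.card (E i) = 32 := by
  have h1 := chk_card i i.2
  rw [← h1, ← Fintype.card_coe, ← Nat.card_eq_fintype_card]
  refine Nat.card_congr
    { toFun := fun x => ⟨enc x.1, ?_⟩
      invFun := fun a => ⟨dec a.1, ?_⟩
      left_inv := ?_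
      right_inv := ?_ }
  · rw [Finset.mem_filter, Finset.mem_range, Bool.or_eq_true, beq_iff_eq, beq_iff_eq]
    exact ⟨enc_lt _, (mem_E i x.1).mp x.2⟩
  · have ha := a.2
    rw [Finset.mem_filter, Finset.mem_range, Bool.or_eq_true, beq_iff_eq, beq_iff_eq] at ha
    rw [mem_E, enc_dec _ ha.1]
    exact ha.2
  · intro x
    exact Subtype.ext (dec_enc x.1)
  · intro a
    have ha := a.2
    rw [Finset.mem_filter, Finset.mem_range] at ha
    exact Subtype.ext (enc_dec _ ha.1)

theorem finrank_E (i : Fin (2 ^ (5 - 1))) : finrank (ZMod 2) (E i) = 5 := by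
  have h1 := PSGen.card_sub (E i)
  rw [card_E i] at h1
  exact (Nat.pow_right_injective (le_refl 2) (h1.symm.trans (by norm_num : 32 = 2 ^ 5)))

theorem own_zero : own 0 = 0 := by decide +kernel

theorem own2_zero : own2 0 = 0 := by decide +kernel

theorem dis_E (i j : Fin (2 ^ (5 - 1))) (hij : i ≠ j) : E i ⊓ E j = ⊥ := by
  rw [eq_bot_iff]
  rintro x ⟨hx1, hx2⟩
  rw [SetLike.mem_coe, mem_E] at hx1 hx2
  rw [Submodule.mem_bot]
  by_contra hne
  have h0 : enc x ≠ 0 := fun h => hne (enc_eq_zero h)
  have h1 := hx1.resolve_left h0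
  have h2 := hx2.resolve_left h0
  apply hij
  apply Fin.ext
  omega

/-- the code of a linear functional -/
def vec (φ : Dual (ZMod 2) X) : X := fun i => φ (fun j => if i = j then 1 else 0)

theorem vec_add (φ ψ : Dual (ZMod 2) X) : vec (φ + ψ) = vec φ + vec ψ := by
  funext i
  rfl

theorem apply_dec (φ : Dual (ZMod 2) X) (b : ℕ) :
    φ (dec b) = bv (par (Nat.land (enc (vec φ)) b)) := by
  rw [LinearMap.pi_apply_eq_sum_univ φ (dec b), ← sum_bv]
  refine Finset.sum_congr rfl fun i _ => ?_
  rw [bv_testBit_enc, smul_eq_mul, mul_comm]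
  rfl

theorem vec_zero {φ : Dual (ZMod 2) X} (h : vec φ = 0) : φ = 0 := by
  apply LinearMap.ext
  intro x
  rw [LinearMap.pi_apply_eq_sum_univ φ x, LinearMap.zero_apply]
  refine Finset.sum_eq_zero fun i _ => ?_
  have : φ (fun j => if i = j then 1 else 0) = 0 := congrFun h i
  rw [this, smul_zero]

theorem own2_of_mem (i : Fin (2 ^ (5 - 1))) (φ : Dual (ZMod 2) X)
    (hφ : φ ∈ (E i).dualAnnihilator) (h0 : φ ≠ 0) : own2 (enc (vec φ)) = i + 1 := by
  have h1 := all_range chk_dual i i.2
  have h2 := all_range h1 (enc (vec φ)) (enc_lt _)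
  rw [Bool.or_eq_true, Bool.or_eq_true, beq_iff_eq, beq_iff_eq] at h2
  rcases h2 with (h2 | h2) | h2
  · exact absurd (vec_zero (enc_eq_zero h2)) h0
  · exfalso
    rw [List.any_eq_true] at h2
    obtain ⟨b, hb, hb2⟩ := h2
    have h3 := all_range chk_bas i i.2
    rw [List.all_eq_true] at h3
    have h4 := h3 b hb
    rw [Bool.and_eq_true, beq_iff_eq] at h4
    have hb3 : b < 1024 := by
      have := h4.1
      exact Nat.le_of_ble_eq_true this
    have h5 : dec b ∈ E i := by
      rw [mem_E, enc_dec b hb3]
      exact Or.inr h4.2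
    have h6 := (Submodule.mem_dualAnnihilator φ).mp hφ _ h5
    rw [apply_dec, ← PAR_eq _ (land_lt _ _ hb3), hb2] at h6
    exact absurd h6 (by decide)
  · exact h2

/-- the partial spread function -/
def f (x : X) : ZMod 2 := if own (enc x) = 0 then 0 else 1

theorem f_zero : f 0 = 0 := by
  unfold f
  rw [enc_zero, if_pos own_zero]

theorem f_eq_one (x : X) : f x = 1 ↔ ∃ i : Fin (2 ^ (5 - 1)), x ∈ E i ∧ x ≠ 0 := by
  unfold f
  constructor
  · intro h
    have h0 : own (enc x) ≠ 0 := by
      intro h0
      rw [if_pos h0] at h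
      exact absurd h (by decide)
    have h1 := all_range chk_own_le (enc x) (enc_lt x)
    have h2 : own (enc x) ≤ 16 := Nat.le_of_ble_eq_true h1
    refine ⟨⟨own (enc x) - 1, ?_⟩, ?_, ?_⟩
    · change own (enc x) - 1 < 16
      omega
    · rw [mem_E]
      right
      change own (enc x) = own (enc x) - 1 + 1
      omega
    · rintro rfl
      rw [enc_zero] at h0
      exact h0 own_zero
  · rintro ⟨i, hi, hx⟩
    rw [mem_E] at hi
    have h1 := hi.resolve_left (fun h => hx (enc_eq_zero h))
    rw [if_neg]
    omega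

theorem not_normal (V : Submodule (ZMod 2) X) (c : X) (b : ZMod 2)
    (hV : finrank (ZMod 2) V = 5) (h : ∀ v ∈ V, f (c + v) = b) : False := by
  have hX : finrank (ZMod 2) X = 2 * 5 := by
    rw [Module.finrank_fin_fun]
  have hι : Fintype.card (Fin (2 ^ (5 - 1))) = 2 ^ (5 - 1) := Fintype.card_fin _
  by_cases hc : c ∈ V
  · -- the linear case
    have hb : b = 0 := by
      rw [← h (-c) (V.neg_mem hc), add_neg_cancel, f_zero]
    have h1 : ∀ v ∈ V, own (enc v) = 0 := by
      intro v hv
      have h2 := h (v - c) (V.sub_mem hv hc)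
      rw [add_sub_cancel, hb] at h2
      by_contra h3
      unfold f at h2
      rw [if_neg h3] at h2
      exact absurd h2 (by decide)
    -- projection to the first five coordinates
    let p : V →ₗ[ZMod 2] (Fin 5 → ZMod 2) :=
      { toFun := fun v j => v.1 ⟨j, by omega⟩
        map_add' := fun v w => rfl
        map_smul' := fun a v => rfl }
    have hpinj : Function.Injective p := by
      rw [← LinearMap.ker_eq_bot, eq_bot_iff]
      intro v hv
      rw [LinearMap.mem_ker] at hv
      rw [Submodule.mem_bot]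
      have hE : v.1 ∈ E ⟨1, by decide⟩ := by
        intro h hh
        have h4 : ∀ h ∈ HL.getD 1 [], (List.range 5).all (fun i => true) = true ∧
            ∀ j : Fin 10, 5 ≤ j.1 → h.testBit j = false := by decide +kernel
        have h5 := (h4 h hh).2
        unfold dot
        refine Finset.sum_eq_zero fun j _ => ?_
        by_cases hj : j.1 < 5
        · have : v.1 j = 0 := congrFun hv ⟨j.1, hj⟩
          rw [this, mul_zero]
        · rw [h5 j (by omega)]
          change 0 * _ = _
          rw [zero_mul]
      rw [mem_E] at hE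
      rcases hE with hE | hE
      · exact Subtype.ext (enc_eq_zero hE)
      · rw [h1 v.1 v.2] at hE
        exact absurd hE (by decide)
    have hpsurj : Function.Surjective p :=
      (LinearMap.injective_iff_surjective_of_finrank_eq_finrank
        (by rw [hV, Module.finrank_fin_fun])).mp hpinj
    refine srch1_sound (fun a => ∃ v ∈ V, enc v = a) ?_ ?_ ?_ 5 0 [0] rfl ?_ chk_s1
    · rintro _ _ ⟨v, hv, rfl⟩ ⟨w, hw, rfl⟩
      exact ⟨v + w, V.add_mem hv hw, enc_add v w⟩
    · rintro _ ⟨v, hv, rfl⟩
      exact h1 v hv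
    · intro j hj
      obtain ⟨v, hv⟩ := hpsurj (Pi.single ⟨j, hj⟩ 1)
      refine ⟨enc v.1 / 32, ?_, v.1, v.2, ?_⟩
      · have := enc_lt v.1
        omega
      · have h6 : enc v.1 % 32 = 2 ^ j := by
          apply Nat.eq_of_testBit_eq
          intro i
          have h7 : (enc v.1 % 2 ^ 5).testBit i = (decide (i < 5) && (enc v.1).testBit i) :=
            Nat.testBit_mod_two_pow _ _ _
          have h8 : (2 ^ j).testBit i = decide (j = i) := Nat.testBit_two_pow
          rw [h8]
          change (enc v.1 % 2 ^ 5).testBit i = _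
          rw [h7]
          by_cases hi : i < 5
          · rw [testBit_enc _ i (by omega)]
            have h9 : v.1 ⟨i, by omega⟩ = (Pi.single ⟨j, hj⟩ 1 : Fin 5 → ZMod 2) ⟨i, hi⟩ :=
              congrFun hv ⟨i, hi⟩
            rw [h9]
            by_cases hij : j = i
            · subst hij
              simp [hi]
            · have h10 : (⟨i, hi⟩ : Fin 5) ≠ ⟨j, hj⟩ := by
                intro h
                exact hij (congrArg Fin.val h).symm
              rw [Pi.single_eq_of_ne h10]
              simp [hij]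
          · have : ¬ j = i := by omega
            simp [hi, this]
        omega
    · intro s hs
      rw [List.mem_singleton] at hs
      rw [hs]
      exact ⟨0, V.zero_mem, enc_zero⟩
  · rcases PSGen.zmod2_cases b with rfl | rfl
    · -- value 0 on a flat outside V
      have h1 : ∀ v ∈ V, ∀ i, c + v ∉ E i := by
        intro v hv i hi
        have h2 := h v hv
        have h3 : f (c + v) = 1 := by
          rw [f_eq_one]
          refine ⟨i, hi, ?_⟩
          intro h0
          apply hc
          have : c = -v := eq_neg_of_add_eq_zero_left h0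
          rw [this]
          exact V.neg_mem hv
        rw [h3] at h2
        exact absurd h2 (by decide)
      obtain ⟨φ, hinj, hφV, hφE, hφc, hφs⟩ :=
        PSGen.zero_case hι hX (by norm_num) E finrank_E dis_E V hV c hc h1
      have hφ0 : ∀ i, φ i ≠ 0 := by
        intro i h0
        have h2 := hφc i
        rw [h0] at h2
        exact absurd h2 (by simp)
      have how : ∀ i, own2 (enc (vec (φ i))) = i + 1 := fun i => own2_of_mem i (φ i) (hφE i) (hφ0 i)
      -- closure under triple sums
      have h3 : ∀ i j l, ∃ m, φ i + (φ j + φ l) = φ m := by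
        intro i j l
        apply hφs
        · exact V.dualAnnihilator.add_mem (hφV i) (V.dualAnnihilator.add_mem (hφV j) (hφV l))
        · rw [LinearMap.add_apply, LinearMap.add_apply, hφc, hφc, hφc]
          decide
      have h3' : ∀ i j l, ∃ m, Nat.xor (enc (vec (φ i))) (Nat.xor (enc (vec (φ j)))
          (enc (vec (φ l)))) = enc (vec (φ m)) := by
        intro i j l
        obtain ⟨m, hm⟩ := h3 i j l
        refine ⟨m, ?_⟩
        rw [← hm, vec_add, vec_add, enc_add, enc_add]
      have hDL : ∀ y < 1024, own2 y ≠ 0 → own2 y ≤ 16 ∧ y ∈ DL.getD (own2 y - 1) [] := by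
        intro y hy h0
        have h4 := all_range chk_DL y hy
        rw [Bool.or_eq_true, beq_iff_eq, Bool.and_eq_true] at h4
        have h5 := h4.resolve_left h0
        exact ⟨Nat.le_of_ble_eq_true h5.1, List.elem_iff.mp h5.2⟩
      have hDLi : ∀ i : Fin (2 ^ (5 - 1)), enc (vec (φ i)) ∈ DL.getD i [] := by
        intro i
        have h4 := hDL (enc (vec (φ i))) (enc_lt _) (by rw [how i]; omega)
        rw [how i] at h4
        simpa using h4.2
      have hpair : ∀ i j, own2 (Nat.xor (enc (vec (φ i))) (enc (vec (φ j)))) = 0 := by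
        intro i j
        by_contra hne
        set z := Nat.xor (enc (vec (φ i))) (enc (vec (φ j))) with hz
        have hzlt : z < 1024 := by
          rw [hz, ← enc_add]
          exact enc_lt _
        obtain ⟨h4, h5⟩ := hDL z hzlt hne
        have hl : own2 z - 1 < 16 := by omega
        have h6 := hDLi ⟨own2 z - 1, hl⟩
        obtain ⟨m, hm⟩ := h3' ⟨own2 z - 1, hl⟩ i j
        rw [← hz] at hm
        have h7 := all_range chk_clos (own2 z - 1) hl
        rw [List.all_eq_true] at h7
        have h8 := h7 _ h6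
        rw [List.all_eq_true] at h8
        have h9 := h8 _ h5
        rw [Bool.or_eq_true, beq_iff_eq, beq_iff_eq] at h9
        rw [hm, how m] at h9
        rcases h9 with h9 | h9
        · -- the triple sum vanishes
          rw [h9] at hm
          have h10 : Nat.xor z z = 0 := Nat.xor_self z
          rw [h10] at hm
          have h11 := how m
          rw [← hm, own2_zero] at h11
          omega
        · have h10 : m = ⟨own2 z - 1, hl⟩ := Fin.ext (by
            change m.1 = own2 z - 1
            omega)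
          rw [h10] at hm
          have h11 : z = 0 := by
            have h12 : (enc (vec (φ ⟨own2 z - 1, hl⟩))) ^^^ ((enc (vec (φ ⟨own2 z - 1, hl⟩))) ^^^ z)
                = (enc (vec (φ ⟨own2 z - 1, hl⟩))) ^^^ (enc (vec (φ ⟨own2 z - 1, hl⟩))) := by
              exact congrArg (fun t => (enc (vec (φ ⟨own2 z - 1, hl⟩))) ^^^ t) hm
            rw [← Nat.xor_assoc, Nat.xor_self, Nat.zero_xor] at h12
            exact h12
          rw [h11, own2_zero] at hne
          exact hne rfl
      have h0 := chk_s2
      rw [List.all_eq_true] at h0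
      have h4 := h0 _ (hDLi ⟨0, by decide⟩)
      refine srch2_sound (fun a => ∃ i, enc (vec (φ i)) = a) ?_ ?_ ?_ ?_ 4 _ _ 3 ?_ ?_ h4
      · rintro _ _ _ ⟨i, rfl⟩ ⟨j, rfl⟩ ⟨l, rfl⟩
        obtain ⟨m, hm⟩ := h3' i j l
        exact ⟨m, hm.symm⟩
      · rintro _ _ ⟨i, rfl⟩ ⟨j, rfl⟩
        exact hpair i j
      · rintro _ ⟨i, rfl⟩
        rw [how i]
        omega
      · intro i hi
        exact ⟨_, ⟨⟨i, hi⟩, rfl⟩, hDLi ⟨i, hi⟩⟩
      · intro t ht
        rw [List.mem_singleton] at ht
        exact ⟨_, ht.symm⟩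
      · exact ⟨_, rfl⟩
    · -- value 1
      refine PSGen.no_one hι hX (by norm_num) E finrank_E dis_E V hV c hc ?_
      intro v hv
      obtain ⟨i, hi, -⟩ := (f_eq_one _).mp (h v hv)
      exact ⟨i, hi⟩

end Pool.Agent.H164.NPS
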